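import Pool.Agent.L0h43.IX.Main
import Pool.Agent.R330.LT.Seq
import Pool.Agent.H95R2.Leh.FamLeh

set_option autoImplicit false

/-!
# Integers coprime to their totient: `n / φ(n)` against the number of prime factors
-/

namespace Pool.Agent.L0h43.IX

open Finset
open Pool.Agent.H95R2.Leh

theorem sum_pred (A : Finset ℕ) (hA : ∀ p ∈ A, 2 ≤ p) : ∑ p ∈ A, 1 / ((p : ℝ) * (p - 1)) ≤ 1 := by
  -- sum over `2 ≤ p < N`
  have key : ∀ N : ℕ, ∑ p ∈ Ico 2 (N + 2), 1 / ((p : ℝ) * (p - 1)) = 1 - 1 / ((N : ℝ) + 1) := by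
    intro N
    induction N with
    | zero => simp
    | succ N ih =>
      rw [show N + 1 + 2 = (N + 2) + 1 by ring, sum_Ico_succ_top (by omega), ih]
      push_cast
      have h1 : (N : ℝ) + 1 ≠ 0 := by positivity
      have h2 : (N : ℝ) + 2 ≠ 0 := by positivity
      have h3 : (N : ℝ) + 2 - 1 ≠ 0 := by
        have : (N : ℝ) + 2 - 1 = N + 1 := by ring
        rw [this]; exact h1
      have h4 : (N : ℝ) + 1 + 1 ≠ 0 := by positivity
      field_simp
      ring
  set N := A.sup id with hN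
  have hsub : A ⊆ Ico 2 (N + 2) := by
    intro p hp
    rw [mem_Ico]
    have : id p ≤ A.sup id := le_sup hp
    simp only [id] at this
    exact ⟨hA p hp, by omega⟩
  calc ∑ p ∈ A, 1 / ((p : ℝ) * (p - 1)) ≤ ∑ p ∈ Ico 2 (N + 2), 1 / ((p : ℝ) * (p - 1)) := by
        apply sum_le_sum_of_subset_of_nonneg hsub
        intro p hp _
        have : 2 ≤ p := (mem_Ico.1 hp).1
        have : (2 : ℝ) ≤ p := by exact_mod_cast this
        have : 0 ≤ (p : ℝ) * (p - 1) := mul_nonneg (by linarith) (by linarith)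
        positivity
    _ = 1 - 1 / ((N : ℝ) + 1) := key N
    _ ≤ 1 := by
        have : 0 ≤ 1 / ((N : ℝ) + 1) := by positivity
        linarith

theorem ratio_le_exp {n : ℕ} (hn : n ≠ 0) :
    (n : ℝ) / n.totient ≤ Real.exp (∑ p ∈ n.primeFactors, (1 : ℝ) / p + 1) := by
  have hpr : ∀ p ∈ n.primeFactors, p.Prime := fun p hp => Nat.prime_of_mem_primeFactors hp
  have h1 : (n : ℝ) * ∏ p ∈ n.primeFactors, ((p : ℝ) - 1) = n.totient * ∏ p ∈ n.primeFactors, (p : ℝ) := by
    have h2 := Nat.totient_mul_prod_primeFactors n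
    have h3 : ∏ p ∈ n.primeFactors, ((p : ℝ) - 1) = ((∏ p ∈ n.primeFactors, (p - 1) : ℕ) : ℝ) := by
      rw [Nat.cast_prod]
      apply prod_congr rfl
      intro p hp
      rw [Nat.cast_sub (hpr p hp).one_le]
      simp
    rw [h3, ← Nat.cast_prod, ← Nat.cast_mul, ← Nat.cast_mul, h2]
  have ht : (0 : ℝ) < n.totient := by exact_mod_cast Nat.totient_pos.2 (Nat.pos_of_ne_zero hn)
  have hpos : ∀ p ∈ n.primeFactors, (0 : ℝ) < (p : ℝ) - 1 := by
    intro p hp
    have : (2 : ℝ) ≤ p := by exact_mod_cast (hpr p hp).two_le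
    linarith
  have hprod : 0 < ∏ p ∈ n.primeFactors, ((p : ℝ) - 1) := prod_pos hpos
  have h4 : (n : ℝ) / n.totient = ∏ p ∈ n.primeFactors, ((p : ℝ) / (p - 1)) := by
    rw [prod_div_distrib, div_eq_div_iff ht.ne' hprod.ne', h1, mul_comm]
  rw [h4]
  calc ∏ p ∈ n.primeFactors, ((p : ℝ) / (p - 1)) ≤
      ∏ p ∈ n.primeFactors, Real.exp (1 / p + 1 / ((p : ℝ) * (p - 1))) := by
        apply prod_le_prod
        · intro p hp
          have := hpos p hp
          positivity
        · intro p hp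
          have h5 := hpos p hp
          have h6 : (0 : ℝ) < p := by linarith
          have h7 : (p : ℝ) / (p - 1) = (1 / p + 1 / ((p : ℝ) * (p - 1))) + 1 := by
            field_simp
            ring
          rw [h7]
          exact Real.add_one_le_exp _
    _ = Real.exp (∑ p ∈ n.primeFactors, ((1 : ℝ) / p + 1 / ((p : ℝ) * (p - 1)))) := by
        rw [Real.exp_sum]
    _ ≤ _ := by
        apply Real.exp_le_exp.2
        rw [sum_add_distrib]
        have := sum_pred n.primeFactors (fun p hp => (hpr p hp).two_le)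
        linarith

theorem sum_le_TT (A : Finset ℕ) (hA : ∀ p ∈ A, p.Prime) (j : ℕ) (hj : #A ≤ 2 ^ 2 ^ j) :
    ∑ p ∈ A, (1 : ℝ) / p ≤ TT A j + 1 := by
  rw [← sum_filter_add_sum_filter_not A (fun q => q < 2 ^ 2 ^ j)]
  unfold TT
  apply add_le_add le_rfl
  have h1 : ∀ q ∈ A.filter (fun q => ¬ q < 2 ^ 2 ^ j), (1 : ℝ) / q ≤ 1 / 2 ^ 2 ^ j := by
    intro q hq
    rw [mem_filter, not_lt] at hq
    have : (2 : ℝ) ^ 2 ^ j ≤ q := by exact_mod_cast hq.2
    exact one_div_le_one_div_of_le (by positivity) this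
  refine (sum_le_card_nsmul _ _ _ h1).trans ?_
  rw [nsmul_eq_mul, mul_one_div, div_le_one (by positivity)]
  have h2 : #(A.filter (fun q => ¬ q < 2 ^ 2 ^ j)) ≤ 2 ^ 2 ^ j := (card_filter_le _ _).trans hj
  exact_mod_cast h2

theorem cyclic_bound : ∃ C : ℝ, 0 < C ∧ ∀ n : ℕ, n ≠ 0 → Nat.Coprime n n.totient →
    ∀ j : ℕ, n.primeFactors.card ≤ 2 ^ 2 ^ j → (n : ℝ) / n.totient ≤ C * (1 + j) := by
  obtain ⟨C, hC, hT⟩ := exp_TT
  refine ⟨Real.exp 2 * (1 + C), by positivity, fun n hn hco j hj => ?_⟩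
  have hA : ∀ p ∈ n.primeFactors, p.Prime := fun p hp => Nat.prime_of_mem_primeFactors hp
  have hAA : ∀ p ∈ n.primeFactors, ∀ q ∈ n.primeFactors, ¬ q ∣ p - 1 := by
    intro p hp q hq hqp
    have h1 : p.totient ∣ n.totient := Nat.totient_dvd_of_dvd (Nat.dvd_of_mem_primeFactors hp)
    rw [Nat.totient_prime (hA p hp)] at h1
    exact Nat.Prime.not_coprime_iff_dvd.2 ⟨q, hA q hq, Nat.dvd_of_mem_primeFactors hq,
      hqp.trans h1⟩ hco
  have h1 := ratio_le_exp hn
  have h2 := sum_le_TT n.primeFactors hA j hj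
  have h3 := hT n.primeFactors hA hAA j
  calc (n : ℝ) / n.totient ≤ _ := h1
    _ ≤ Real.exp (TT n.primeFactors j + 2) := Real.exp_le_exp.2 (by linarith)
    _ = Real.exp (TT n.primeFactors j) * Real.exp 2 := Real.exp_add _ _
    _ ≤ (1 + C * j) * Real.exp 2 := mul_le_mul_of_nonneg_right h3 (Real.exp_pos _).le
    _ ≤ ((1 + C) * (1 + j)) * Real.exp 2 := by
        apply mul_le_mul_of_nonneg_right _ (Real.exp_pos _).le
        have : (0 : ℝ) ≤ j := Nat.cast_nonneg j
        nlinarith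
    _ = _ := by ring

/-- bound by the iterated logarithm -/
theorem cyclic_log : ∃ C : ℝ, 0 < C ∧ ∀ n : ℕ, Nat.Coprime n n.totient → 3 ≤ n.primeFactors.card →
    (n : ℝ) / n.totient ≤ C * Real.log (Real.log n.primeFactors.card) := by
  obtain ⟨C, hC, hB⟩ := cyclic_bound
  have hl3 : (1.09 : ℝ) < Real.log 3 := by
    have h1 : (3 : ℝ) = Real.exp (Real.log 3) := (Real.exp_log (by norm_num)).symm
    rw [← Real.exp_lt_exp, ← h1]
    have h2 : Real.exp 1.09 = Real.exp 1 * Real.exp 0.09 := by rw [← Real.exp_add]; norm_num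
    have h3 := Real.exp_one_lt_d9
    have h4 : Real.exp (0.09 : ℝ) ≤ 1 / (1 - 0.09) := by
      have h5 := Real.add_one_le_exp (-0.09 : ℝ)
      have h6 : Real.exp (0.09 : ℝ) * Real.exp (-0.09) = 1 := by rw [← Real.exp_add]; norm_num
      rw [le_div_iff₀ (by norm_num)]
      have h7 := mul_le_mul_of_nonneg_left h5 (Real.exp_pos (0.09 : ℝ)).le
      linarith
    rw [h2]
    calc Real.exp 1 * Real.exp 0.09 ≤ 2.7182818286 * (1 / (1 - 0.09)) :=
          mul_le_mul h3.le h4 (Real.exp_pos _).le (by norm_num)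
      _ < 3 := by norm_num
  have hll3 : (0.08 : ℝ) < Real.log (Real.log 3) := by
    have h1 : (0 : ℝ) < Real.log 3 := by linarith
    rw [Real.lt_log_iff_exp_lt h1]
    refine lt_of_le_of_lt ?_ hl3
    have h5 := Real.add_one_le_exp (-0.08 : ℝ)
    have h6 : Real.exp (0.08 : ℝ) * Real.exp (-0.08) = 1 := by rw [← Real.exp_add]; norm_num
    have h7 := mul_le_mul_of_nonneg_left h5 (Real.exp_pos (0.08 : ℝ)).le
    have h8 : Real.exp (0.08 : ℝ) ≤ 1 / 0.92 := by
      rw [le_div_iff₀ (by norm_num)]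
      linarith
    refine h8.trans ?_
    norm_num
  refine ⟨C * 200, by positivity, fun n hco hω => ?_⟩
  set W := n.primeFactors.card with hW
  have hn : n ≠ 0 := by
    rintro rfl
    simp at hW
    omega
  have hW3 : (3 : ℝ) ≤ W := by exact_mod_cast hω
  set j := Nat.clog 2 (Nat.clog 2 W) with hj
  have h1 : W ≤ 2 ^ 2 ^ j := by
    refine (Nat.le_pow_clog (b := 2) (by norm_num) W).trans ?_
    exact Nat.pow_le_pow_right (by norm_num) (Nat.le_pow_clog (b := 2) (by norm_num) _)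
  have h2 := hB n hn hco j h1
  refine h2.trans ?_
  rw [mul_assoc]
  apply mul_le_mul_of_nonneg_left _ hC.le
  have hlog2 : (0.6931471803 : ℝ) < Real.log 2 := Real.log_two_gt_d9
  have hlogW : Real.log 3 ≤ Real.log W := Real.log_le_log (by norm_num) hW3
  have hlW : (0 : ℝ) < Real.log W := by linarith
  have hy : Real.log (Real.log 3) ≤ Real.log (Real.log W) := Real.log_le_log (by linarith) hlogW
  -- j ≤ log (log W) / log 2 + const
  have hclog : ∀ m : ℕ, 2 ≤ m → (2 : ℝ) ^ Nat.clog 2 m ≤ 2 * m := by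
    intro m hm
    have h3 := Nat.pow_pred_clog_lt_self (b := 2) (by norm_num) (show 1 < m by omega)
    have h4 : 0 < Nat.clog 2 m := Nat.clog_pos (by norm_num) hm
    obtain ⟨t, ht⟩ : ∃ t, Nat.clog 2 m = t + 1 := ⟨Nat.clog 2 m - 1, by omega⟩
    rw [ht] at h3 ⊢
    simp only [Nat.pred_succ] at h3
    have h5 : (2 : ℝ) ^ t < m := by exact_mod_cast h3
    rw [pow_succ]
    linarith
  set c1 := Nat.clog 2 W with hc1
  have hc1ge : 2 ≤ c1 := by
    rw [hc1]
    have : 1 < Nat.clog 2 W := by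
      rw [Nat.lt_clog_iff_pow_lt (by norm_num)]
      omega
    omega
  have h3 := hclog W (by omega)
  have h4 := hclog c1 hc1ge
  have h5 : (c1 : ℝ) * Real.log 2 ≤ Real.log 2 + Real.log W := by
    have := Real.log_le_log (by positivity) h3
    rwa [Real.log_pow, Real.log_mul (by norm_num) (by positivity)] at this
  have h6 : (j : ℝ) * Real.log 2 ≤ Real.log 2 + Real.log c1 := by
    have := Real.log_le_log (by positivity) h4
    rwa [Real.log_pow, Real.log_mul (by norm_num) (by positivity)] at this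
  have h7 : (c1 : ℝ) ≤ 3 * Real.log W := by
    have h8 : (c1 : ℝ) * 0.69 ≤ 0.7 + Real.log W := by
      have h9 : (c1 - 1 : ℝ) * 0.69 ≤ (c1 - 1) * Real.log 2 := by
        apply mul_le_mul_of_nonneg_left (by linarith)
        have : (2 : ℝ) ≤ c1 := by exact_mod_cast hc1ge
        linarith
      linarith
    linarith
  have h8 : Real.log c1 ≤ Real.log 3 + Real.log (Real.log W) := by
    rw [← Real.log_mul (by norm_num) hlW.ne']
    exact Real.log_le_log (by positivity) h7
  have h9 : Real.log 3 ≤ 1.2 := by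
    rw [Real.log_le_iff_le_exp (by norm_num)]
    have h10 := Real.exp_one_gt_d9
    have h11 := Real.add_one_le_exp (0.2 : ℝ)
    have h12 : Real.exp 1.2 = Real.exp 1 * Real.exp 0.2 := by rw [← Real.exp_add]; norm_num
    rw [h12]
    calc (3 : ℝ) ≤ 2.7182818283 * (0.2 + 1) := by norm_num
      _ ≤ Real.exp 1 * Real.exp 0.2 := mul_le_mul h10.le h11 (by norm_num) (Real.exp_pos _).le
  set y := Real.log (Real.log W) with hydef
  have hy8 : 0.08 < y := by linarith
  have h10 : (j : ℝ) * 0.69 ≤ 0.7 + 1.2 + y := by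
    have hj0 : (0 : ℝ) ≤ j := Nat.cast_nonneg j
    have h11 : (j : ℝ) * 0.69 ≤ j * Real.log 2 := mul_le_mul_of_nonneg_left (by linarith) hj0
    have h12 : Real.log 2 ≤ 0.7 := by
      have := Real.log_two_lt_d9
      linarith
    linarith
  linarith

/-- for solutions of Lehmer's problem -/
theorem lehmer_index : ∃ c : ℝ, 0 < c ∧ ∀ n : ℕ, Leh n →
    Real.exp (Real.exp (c * ((n : ℝ) / n.totient))) ≤ n.primeFactors.card := by
  obtain ⟨C, hC, hB⟩ := cyclic_log
  refine ⟨1 / C, by positivity, fun n h => ?_⟩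
  obtain ⟨hsq, hodd, hco⟩ := leh_basic h
  have hω : 3 ≤ n.primeFactors.card := by
    by_contra hlt
    push Not at hlt
    have h1 := Pool.Agent.R330.LT.leh_bound h
    have h2 : 2 ^ n.primeFactors.card ≤ 2 ^ 2 := Nat.pow_le_pow_right (by norm_num) (by omega)
    have h3 : 2 ^ (2 ^ n.primeFactors.card) ≤ 2 ^ (2 ^ 2) := Nat.pow_le_pow_right (by norm_num) h2
    have h4 : 2 ≤ n := h.1
    have h5 : 2 ^ 100 ≤ n ^ 100 := Nat.pow_le_pow_left h4 100
    have h6 : (2 : ℕ) ^ 100 < 2 ^ (2 ^ 2) := lt_of_le_of_lt h5 (lt_of_lt_of_le h1 h3)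
    norm_num at h6
  have h1 := hB n hco hω
  have hW3 : (3 : ℝ) ≤ n.primeFactors.card := by exact_mod_cast hω
  have hlW : 1 < Real.log (n.primeFactors.card : ℝ) := by
    rw [Real.lt_log_iff_exp_lt (by linarith)]
    have := Real.exp_one_lt_d9
    linarith
  have h2 : 1 / C * ((n : ℝ) / n.totient) ≤ Real.log (Real.log n.primeFactors.card) := by
    rw [one_div, inv_mul_le_iff₀ hC]
    exact h1
  have h3 : Real.exp (1 / C * ((n : ℝ) / n.totient)) ≤ Real.log n.primeFactors.card := by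
    rw [← Real.le_log_iff_exp_le (by linarith)]
    exact h2
  rw [← Real.le_log_iff_exp_le (by linarith)]
  exact h3

end Pool.Agent.L0h43.IX
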