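import Pool.Agent.L0h43.IX.Sieve
import Pool.Agent.Helper112.Lp.Kmg

set_option autoImplicit false

/-!
# Sets of primes none of which is `1` modulo another one: reciprocal sums
-/

namespace Pool.Agent.L0h43.IX

open Finset
open Pool.Agent.H410R2.ED Pool.Agent.Helper112.LP

/-- reciprocal sum of the elements of `A` below `2^(2^j)` -/
noncomputable def TT (A : Finset ℕ) (j : ℕ) : ℝ :=
  ∑ q ∈ A.filter (fun q => q < 2 ^ 2 ^ j), (1 : ℝ) / q

/-- reciprocal sum of the elements of `A` in `[2^(2^j), 2^(2^(j+1)))` -/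
noncomputable def UU (A : Finset ℕ) (j : ℕ) : ℝ :=
  ∑ q ∈ A.filter (fun q => 2 ^ 2 ^ j ≤ q ∧ q < 2 ^ 2 ^ (j + 1)), (1 : ℝ) / q

theorem pow_pow_le (j : ℕ) : 2 ^ 2 ^ j ≤ 2 ^ 2 ^ (j + 1) :=
  Nat.pow_le_pow_right (by norm_num) (Nat.pow_le_pow_right (by norm_num) (Nat.le_succ j))

theorem TT_succ (A : Finset ℕ) (j : ℕ) : TT A (j + 1) = TT A j + UU A j := by
  unfold TT UU
  rw [← sum_union]
  · apply sum_congr _ (fun _ _ => rfl)
    ext q
    simp only [mem_filter, mem_union]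
    have := pow_pow_le j
    constructor
    · rintro ⟨h1, h2⟩
      rcases Nat.lt_or_ge q (2 ^ 2 ^ j) with h3 | h3
      · exact Or.inl ⟨h1, h3⟩
      · exact Or.inr ⟨h1, h3, h2⟩
    · rintro (⟨h1, h2⟩ | ⟨h1, h2, h3⟩)
      · exact ⟨h1, lt_of_lt_of_le h2 this⟩
      · exact ⟨h1, h3⟩
  · rw [disjoint_left]
    intro q h1 h2
    rw [mem_filter] at h1 h2
    omega

theorem UU_nonneg (A : Finset ℕ) (j : ℕ) : 0 ≤ UU A j := sum_nonneg fun _ _ => by positivity

theorem TT_nonneg (A : Finset ℕ) (j : ℕ) : 0 ≤ TT A j := sum_nonneg fun _ _ => by positivity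

theorem TT_zero (A : Finset ℕ) (hA : ∀ p ∈ A, p.Prime) : TT A 0 = 0 := by
  unfold TT
  apply sum_eq_zero
  intro q hq
  rw [mem_filter] at hq
  have := (hA q hq.1).two_le
  norm_num at hq
  omega

theorem UU_le (A : Finset ℕ) (hA : ∀ p ∈ A, p.Prime) (j : ℕ) :
    UU A j ≤ ∑ l ∈ Gj (j + 1), (1 : ℝ) / l := by
  unfold UU
  apply sum_le_sum_of_subset_of_nonneg
  · intro q hq
    rw [mem_filter] at hq
    unfold Gj
    rw [mem_filter, mem_Ico]
    exact ⟨hq.2, hA q hq.1⟩
  · intro _ _ _; positivity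

theorem mertens_bounds : ∃ C : ℝ, 0 < C ∧ (∀ j : ℕ, ∑ l ∈ Gj (j + 1), (1 : ℝ) / l ≤ C) ∧
    ∀ J : ℕ, J * Real.log 2 - C ≤ ∑ l ∈ (range (2 ^ 2 ^ J)).filter Nat.Prime, (1 : ℝ) / l := by
  obtain ⟨C, hC, hM⟩ := mertens_group
  have hlog2 : 0 < Real.log 2 := Real.log_pos (by norm_num)
  refine ⟨C + Real.log 2, by positivity, fun j => ?_, fun J => ?_⟩
  · have h1 := (abs_le.1 (hM (j + 1) (by omega))).2
    have h2 : C / 2 ^ (j + 1) ≤ C := div_le_self hC.le (one_le_pow₀ (by norm_num))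
    linarith
  · have key : ∀ J : ℕ, J * Real.log 2 - C * (1 - (1 / 2) ^ J) ≤
        ∑ l ∈ (range (2 ^ 2 ^ J)).filter Nat.Prime, (1 : ℝ) / l := by
      intro J
      induction J with
      | zero =>
        simp only [Nat.cast_zero, zero_mul, pow_zero, sub_self, mul_zero]
        exact sum_nonneg fun _ _ => by positivity
      | succ J ih =>
        have h1 := (abs_le.1 (hM (J + 1) (by omega))).1
        have h2 : ∑ l ∈ (range (2 ^ 2 ^ (J + 1))).filter Nat.Prime, (1 : ℝ) / l =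
            ∑ l ∈ (range (2 ^ 2 ^ J)).filter Nat.Prime, (1 : ℝ) / l +
              ∑ l ∈ Gj (J + 1), (1 : ℝ) / l := by
          unfold Gj
          rw [← sum_union]
          · apply sum_congr _ (fun _ _ => rfl)
            ext q
            simp only [mem_filter, mem_union, mem_range, mem_Ico, Nat.add_sub_cancel]
            have := pow_pow_le J
            constructor
            · rintro ⟨h1, h2⟩
              rcases Nat.lt_or_ge q (2 ^ 2 ^ J) with h3 | h3
              · exact Or.inl ⟨h3, h2⟩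
              · exact Or.inr ⟨⟨h3, h1⟩, h2⟩
            · rintro (⟨h1, h2⟩ | ⟨⟨h1, h2⟩, h3⟩)
              · exact ⟨lt_of_lt_of_le h1 this, h2⟩
              · exact ⟨h2, h3⟩
          · rw [disjoint_left]
            intro q h1 h2
            rw [mem_filter, mem_range] at h1
            rw [mem_filter, mem_Ico, Nat.add_sub_cancel] at h2
            omega
        rw [h2]
        have h3 : C / 2 ^ (J + 1) = C * (1 / 2) ^ (J + 1) := by
          rw [one_div, inv_pow, div_eq_mul_inv]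
        rw [h3] at h1
        have h4 : C * (1 - (1 / 2) ^ (J + 1)) = C * (1 - (1 / 2) ^ J) + C * (1 / 2) ^ (J + 1) := by
          ring
        push_cast
        rw [h4]
        linarith
    have h5 := key J
    have h6 : C * (1 - (1 / 2) ^ J) ≤ C * 1 := by
      apply mul_le_mul_of_nonneg_left _ hC.le
      have : (0 : ℝ) ≤ (1 / 2) ^ J := by positivity
      linarith
    linarith

/-- removing the primes `2, 3` -/
theorem TT_le (A : Finset ℕ) (hA : ∀ p ∈ A, p.Prime) (J : ℕ) :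
    TT A J ≤ ∑ l ∈ (Pr 2 J).filter (fun l => l ∈ A), (1 : ℝ) / l + 1 := by
  unfold TT
  have hsub : A.filter (fun q => q < 2 ^ 2 ^ J) ⊆ (Pr 2 J).filter (fun l => l ∈ A) ∪ {2, 3} := by
    intro q hq
    rw [mem_filter] at hq
    rw [mem_union, mem_filter]
    unfold Pr
    rw [mem_filter, mem_range]
    have hp := hA q hq.1
    by_cases h4 : 2 * 2 < q
    · exact Or.inl ⟨⟨hq.2, hp, h4⟩, hq.1⟩
    · right
      have h5 : q ≤ 4 := by omega
      have h2 := hp.two_le
      interval_cases q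
      · simp
      · simp
      · exfalso; revert hp; norm_num
  calc ∑ q ∈ A.filter (fun q => q < 2 ^ 2 ^ J), (1 : ℝ) / q ≤
      ∑ q ∈ (Pr 2 J).filter (fun l => l ∈ A) ∪ {2, 3}, (1 : ℝ) / q :=
        sum_le_sum_of_subset_of_nonneg hsub (fun _ _ _ => by positivity)
    _ ≤ ∑ q ∈ (Pr 2 J).filter (fun l => l ∈ A), (1 : ℝ) / q + ∑ q ∈ ({2, 3} : Finset ℕ), (1 : ℝ) / q := by
        rw [← sum_union_inter]
        have : 0 ≤ ∑ x ∈ (Pr 2 J).filter (fun l => l ∈ A) ∩ {2, 3}, (1 : ℝ) / x :=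
          sum_nonneg fun _ _ => by positivity
        linarith
    _ ≤ _ := by
        have : ∑ q ∈ ({2, 3} : Finset ℕ), (1 : ℝ) / q ≤ 1 := by
          rw [sum_pair (by norm_num)]
          norm_num
        linarith

theorem prod_bound : ∃ C : ℝ, 0 < C ∧ ∀ (A : Finset ℕ) (_ : ∀ p ∈ A, p.Prime) (J : ℕ)
    (ρ : ℕ → ℝ) (_ : ∀ l ∈ Pr 2 J, ρ l = if l ∈ A then 2 else 1),
    ∏ l ∈ Pr 2 J, (1 - ρ l / l) ≤ C * (1 / 2) ^ J * Real.exp (-TT A J) := by
  obtain ⟨C, hC, -, hM⟩ := mertens_bounds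
  refine ⟨Real.exp (C + 2), Real.exp_pos _, fun A hA J ρ hρ => ?_⟩
  have h1 : ∏ l ∈ Pr 2 J, (1 - ρ l / l) ≤ ∏ l ∈ Pr 2 J, Real.exp (-(ρ l / l)) := by
    apply prod_le_prod
    · intro l hl
      rw [hρ l hl]
      have h4 : 2 * 2 < l := (mem_filter.1 hl).2.2
      have h5 : (4 : ℝ) < l := by exact_mod_cast h4
      rw [sub_nonneg, div_le_one (by linarith)]
      split_ifs <;> linarith
    · intro l _
      have := Real.add_one_le_exp (-(ρ l / l))
      linarith
  rw [← Real.exp_sum] at h1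
  refine h1.trans ?_
  have h2 : ∑ l ∈ Pr 2 J, ρ l / l = ∑ l ∈ Pr 2 J, (1 : ℝ) / l +
      ∑ l ∈ (Pr 2 J).filter (fun l => l ∈ A), (1 : ℝ) / l := by
    rw [sum_filter, ← sum_add_distrib]
    apply sum_congr rfl
    intro l hl
    rw [hρ l hl]
    split_ifs <;> ring
  have h3 := TT_le A hA J
  have h4 := TT_le ((range (2 ^ 2 ^ J)).filter Nat.Prime) (fun p hp => (mem_filter.1 hp).2) J
  have h5 : (Pr 2 J).filter (fun l => l ∈ (range (2 ^ 2 ^ J)).filter Nat.Prime) = Pr 2 J := by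
    apply filter_true_of_mem
    intro l hl
    unfold Pr at hl
    rw [mem_filter] at hl ⊢
    exact ⟨hl.1, hl.2.1⟩
  have h6 : TT ((range (2 ^ 2 ^ J)).filter Nat.Prime) J =
      ∑ l ∈ (range (2 ^ 2 ^ J)).filter Nat.Prime, (1 : ℝ) / l := by
    unfold TT
    apply sum_congr _ (fun _ _ => rfl)
    apply filter_true_of_mem
    intro l hl
    exact mem_range.1 (mem_filter.1 hl).1
  rw [h5, h6] at h4
  have h7 := hM J
  have h8 : ∑ l ∈ Pr 2 J, -(ρ l / l) = -∑ l ∈ Pr 2 J, ρ l / l := by rw [sum_neg_distrib]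
  rw [h8, h2]
  have h9 : Real.exp (C + 2) * (1 / 2 : ℝ) ^ J * Real.exp (-TT A J) =
      Real.exp (C + 2 - J * Real.log 2 - TT A J) := by
    have : (1 / 2 : ℝ) ^ J = Real.exp (-(J * Real.log 2)) := by
      rw [Real.exp_neg, mul_comm, Real.exp_mul, Real.exp_log (by norm_num), Real.rpow_natCast,
        one_div, inv_pow]
    rw [this, ← Real.exp_add, ← Real.exp_add]
    congr 1
  rw [h9]
  apply Real.exp_le_exp.2
  linarith

open Classical in
/-- number of elements of `A` in a dyadic interval -/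
theorem block : ∃ (c : ℕ) (C : ℝ), 1 ≤ c ∧ 0 < C ∧ ∀ (A : Finset ℕ), (∀ p ∈ A, p.Prime) →
    (∀ p ∈ A, ∀ q ∈ A, ¬ q ∣ p - 1) → ∀ (i J : ℕ), 2 ^ J ≤ i →
    (#(A.filter (fun p => 2 ^ i ≤ p ∧ p < 2 ^ (i + 1))) : ℝ) ≤
      C * 2 ^ i * (1 / 2) ^ J * Real.exp (-TT A J) + 2 ^ (2 ^ J * (2 * c)) := by
  obtain ⟨c, hc, hS⟩ := sieve_gen
  obtain ⟨C, hC, hP⟩ := prod_bound
  refine ⟨c, 2 * C, hc, by positivity, fun A hA hAA i J hJi => ?_⟩
  obtain ⟨P, hPdef⟩ : ∃ P : ℕ → ℕ → Prop, ∀ l t, P l t ↔ (t % l = 0 ∨ (l ∈ A ∧ t % l = 1)) :=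
    ⟨_, fun _ _ => Iff.rfl⟩
  have hfil : ∀ l, l.Prime → (range l).filter (P l) = if l ∈ A then {0, 1} else {0} := by
    intro l hl
    have h2 := hl.two_le
    ext t
    rw [mem_filter, mem_range]
    split_ifs with hlA
    · simp only [hPdef, mem_insert, mem_singleton, hlA, true_and]
      constructor
      · rintro ⟨h1, h3⟩
        rwa [Nat.mod_eq_of_lt h1] at h3
      · rintro (rfl | rfl)
        · exact ⟨by omega, Or.inl (Nat.zero_mod l)⟩
        · exact ⟨by omega, Or.inr (Nat.mod_eq_of_lt (by omega))⟩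
    · simp only [hPdef, mem_singleton, hlA, false_and, or_false]
      constructor
      · rintro ⟨h1, h3⟩
        rwa [Nat.mod_eq_of_lt h1] at h3
      · rintro rfl
        exact ⟨by omega, Nat.zero_mod l⟩
  have hcard : ∀ l, l.Prime → #((range l).filter (P l)) = if l ∈ A then 2 else 1 := by
    intro l hl
    rw [hfil l hl]
    split_ifs
    · exact card_pair (by norm_num)
    · exact card_singleton _
  have h1 := (hS 2 (by norm_num) P J (2 ^ i) (2 ^ i) (fun l hl t => by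
    simp only [hPdef, Nat.add_mod_right]) (fun l hl => by
    rw [hcard l hl]
    split_ifs <;> norm_num)).2
  have h2 := hP A hA J (fun l => (#((range l).filter (P l)) : ℝ)) (fun l hl => by
    rw [hcard l (mem_filter.1 hl).2.1]
    split_ifs <;> norm_num)
  have hsub : A.filter (fun p => 2 ^ i ≤ p ∧ p < 2 ^ (i + 1)) ⊆
      (Ico (2 ^ i) (2 ^ i + 2 ^ i)).filter (fun t => ∀ l ∈ Pr 2 J, ¬ P l t) := by
    intro p hp
    rw [mem_filter] at hp
    obtain ⟨hpA, hp1, hp2⟩ := hp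
    have hpp := hA p hpA
    rw [mem_filter, mem_Ico]
    refine ⟨⟨hp1, by rw [pow_succ] at hp2; omega⟩, fun l hl hPl => ?_⟩
    unfold Pr at hl
    rw [mem_filter, mem_range] at hl
    obtain ⟨hl1, hl2, hl3⟩ := hl
    have hlt : l < p := by
      calc l < 2 ^ 2 ^ J := hl1
        _ ≤ 2 ^ i := Nat.pow_le_pow_right (by norm_num) hJi
        _ ≤ p := hp1
    rcases (hPdef l p).1 hPl with h | ⟨hlA, h⟩
    · have := (Nat.prime_dvd_prime_iff_eq hl2 hpp).1 (Nat.dvd_of_mod_eq_zero h)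
      omega
    · apply hAA p hpA l hlA
      have := Nat.div_add_mod p l
      rw [h] at this
      exact ⟨p / l, by omega⟩
  have h3 : (#(A.filter (fun p => 2 ^ i ≤ p ∧ p < 2 ^ (i + 1))) : ℝ) ≤
      (#((Ico (2 ^ i) (2 ^ i + 2 ^ i)).filter (fun t => ∀ l ∈ Pr 2 J, ¬ P l t)) : ℝ) := by
    exact_mod_cast card_le_card hsub
  refine h3.trans (h1.trans ?_)
  apply add_le_add
  · push_cast
    have h4 : (0 : ℝ) ≤ 2 * 2 ^ i := by positivity
    have h5 := mul_le_mul_of_nonneg_left h2 h4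
    calc _ ≤ _ := h5
      _ = _ := by ring
  · rw [← pow_mul, mul_comm c 2]

/-- the step -/
theorem step : ∃ C : ℝ, 0 < C ∧ ∀ (A : Finset ℕ), (∀ p ∈ A, p.Prime) →
    (∀ p ∈ A, ∀ q ∈ A, ¬ q ∣ p - 1) → ∀ j : ℕ, UU A j ≤ C * Real.exp (-TT A j) := by
  classical
  obtain ⟨c, C1, hc, hC1, hB⟩ := block
  obtain ⟨L, hL, hM, -⟩ := mertens_bounds
  -- trivial bound for `TT`
  have hUL : ∀ (A : Finset ℕ), (∀ p ∈ A, p.Prime) → ∀ j, UU A j ≤ L := fun A hA j =>
    (UU_le A hA j).trans (hM j)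
  have hTadd : ∀ (A : Finset ℕ), (∀ p ∈ A, p.Prime) → ∀ j s, TT A (j + s) ≤ TT A j + s * L := by
    intro A hA j s
    induction s with
    | zero => simp
    | succ s ih =>
      rw [← add_assoc, TT_succ]
      have := hUL A hA (j + s)
      push_cast
      linarith
  have hTL : ∀ (A : Finset ℕ), (∀ p ∈ A, p.Prime) → ∀ j, TT A j ≤ j * L := by
    intro A hA j
    have := hTadd A hA 0 j
    rw [TT_zero A hA, zero_add, zero_add] at this
    exact this
  -- parameters
  obtain ⟨s, hs⟩ : ∃ s : ℕ, 4 * c ≤ 2 ^ s ∧ 1 ≤ s := by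
    refine ⟨4 * c, (Nat.lt_two_pow_self).le, by omega⟩
  obtain ⟨m, hm⟩ : ∃ m : ℕ, 2 * Real.exp L ≤ 2 ^ m := by
    obtain ⟨m, hm⟩ := pow_unbounded_of_one_lt (2 * Real.exp L) (show (1 : ℝ) < 2 by norm_num)
    exact ⟨m, hm.le⟩
  refine ⟨C1 * 2 ^ s * Real.exp (s * L) + 2 ^ m ^ 2 + L * Real.exp (s * L), by positivity,
    fun A hA hAA j => ?_⟩
  have hT0 := TT_nonneg A j
  rcases Nat.lt_or_ge j s with hj | hj
  · -- small j
    have h1 := hUL A hA j
    have h2 : TT A j ≤ s * L := by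
      refine (hTL A hA j).trans ?_
      apply mul_le_mul_of_nonneg_right _ hL.le
      exact_mod_cast hj.le
    have h3 : 1 ≤ Real.exp (s * L) * Real.exp (-TT A j) := by
      rw [← Real.exp_add]
      apply Real.one_le_exp
      linarith
    have h4 : L ≤ L * (Real.exp (s * L) * Real.exp (-TT A j)) := le_mul_of_one_le_right hL.le h3
    have h5 : 0 ≤ (C1 * 2 ^ s * Real.exp (s * L) + 2 ^ m ^ 2) * Real.exp (-TT A j) := by positivity
    calc UU A j ≤ L := h1
      _ ≤ L * (Real.exp (s * L) * Real.exp (-TT A j)) := h4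
      _ ≤ _ := by
        have h6 : (C1 * 2 ^ s * Real.exp (s * L) + 2 ^ m ^ 2 + L * Real.exp (s * L)) *
            Real.exp (-TT A j) = (C1 * 2 ^ s * Real.exp (s * L) + 2 ^ m ^ 2) * Real.exp (-TT A j) +
              L * (Real.exp (s * L) * Real.exp (-TT A j)) := by ring
        rw [h6]
        linarith
  · obtain ⟨J, hJ⟩ : ∃ J, j = J + s := ⟨j - s, by omega⟩
    -- sum over dyadic intervals
    have h1 : UU A j ≤ ∑ i ∈ Ico (2 ^ j) (2 ^ (j + 1)),
        (#(A.filter (fun p => 2 ^ i ≤ p ∧ p < 2 ^ (i + 1))) : ℝ) * (1 / 2 ^ i) := by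
      unfold UU
      rw [← sum_fiberwise_of_maps_to (s := A.filter (fun q => 2 ^ 2 ^ j ≤ q ∧ q < 2 ^ 2 ^ (j + 1)))
        (t := Ico (2 ^ j) (2 ^ (j + 1))) (g := fun q => Nat.log 2 q)]
      · apply sum_le_sum
        intro i _
        have h2 : ∀ q ∈ (A.filter (fun q => 2 ^ 2 ^ j ≤ q ∧ q < 2 ^ 2 ^ (j + 1))).filter
            (fun q => Nat.log 2 q = i), (1 : ℝ) / q ≤ 1 / 2 ^ i := by
          intro q hq
          rw [mem_filter, mem_filter] at hq
          obtain ⟨⟨hqA, h3, h4⟩, h5⟩ := hq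
          have hq0 : q ≠ 0 := (hA q hqA).ne_zero
          have h6 : 2 ^ i ≤ q := by rw [← h5]; exact Nat.pow_log_le_self 2 hq0
          have h7 : (2 : ℝ) ^ i ≤ q := by exact_mod_cast h6
          exact one_div_le_one_div_of_le (by positivity) h7
        refine (sum_le_card_nsmul _ _ _ h2).trans ?_
        rw [nsmul_eq_mul]
        apply mul_le_mul_of_nonneg_right _ (by positivity)
        have h8 : (A.filter (fun q => 2 ^ 2 ^ j ≤ q ∧ q < 2 ^ 2 ^ (j + 1))).filter
            (fun q => Nat.log 2 q = i) ⊆ A.filter (fun p => 2 ^ i ≤ p ∧ p < 2 ^ (i + 1)) := by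
          intro q hq
          rw [mem_filter, mem_filter] at hq
          obtain ⟨⟨hqA, h3, h4⟩, h5⟩ := hq
          have hq0 : q ≠ 0 := (hA q hqA).ne_zero
          rw [mem_filter, ← h5]
          exact ⟨hqA, Nat.pow_log_le_self 2 hq0, Nat.lt_pow_succ_log_self (by norm_num) q⟩
        exact_mod_cast card_le_card h8
      · intro q hq
        rw [mem_filter] at hq
        obtain ⟨hqA, h3, h4⟩ := hq
        rw [mem_Ico]
        exact ⟨Nat.le_log_of_pow_le (by norm_num) h3, Nat.log_lt_of_lt_pow (hA q hqA).ne_zero h4⟩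
    have hpow : 2 ^ J * (2 * c) * 2 ≤ 2 ^ j := by
      rw [hJ, pow_add]
      calc 2 ^ J * (2 * c) * 2 = 2 ^ J * (4 * c) := by ring
        _ ≤ 2 ^ J * 2 ^ s := Nat.mul_le_mul_left _ hs.1
    have h2 : ∀ i ∈ Ico (2 ^ j) (2 ^ (j + 1)),
        (#(A.filter (fun p => 2 ^ i ≤ p ∧ p < 2 ^ (i + 1))) : ℝ) * (1 / 2 ^ i) ≤
        C1 * (1 / 2) ^ J * Real.exp (-TT A J) + 2 ^ (2 ^ J * (2 * c)) / 2 ^ 2 ^ j := by
      intro i hi
      rw [mem_Ico] at hi
      have hJi : 2 ^ J ≤ i := by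
        have : 2 ^ J ≤ 2 ^ j := Nat.pow_le_pow_right (by norm_num) (by omega)
        omega
      have h3 := hB A hA hAA i J hJi
      have h4 : (0 : ℝ) < 2 ^ i := by positivity
      have h5 : (2 : ℝ) ^ 2 ^ j ≤ 2 ^ i := pow_le_pow_right₀ (by norm_num) hi.1
      calc _ ≤ (C1 * 2 ^ i * (1 / 2) ^ J * Real.exp (-TT A J) + 2 ^ (2 ^ J * (2 * c))) *
            (1 / 2 ^ i) := mul_le_mul_of_nonneg_right h3 (by positivity)
        _ = C1 * (1 / 2) ^ J * Real.exp (-TT A J) + 2 ^ (2 ^ J * (2 * c)) / 2 ^ i := by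
            field_simp
        _ ≤ _ := by
            apply add_le_add le_rfl
            exact div_le_div_of_nonneg_left (by positivity) (by positivity) h5
    have h3 := sum_le_sum h2
    rw [sum_const, Nat.card_Ico, nsmul_eq_mul] at h3
    have h4 : 2 ^ (j + 1) - 2 ^ j = 2 ^ j := by rw [pow_succ]; omega
    rw [h4] at h3
    push_cast at h3
    -- first part
    have h5 : (2 : ℝ) ^ j * (C1 * (1 / 2) ^ J * Real.exp (-TT A J)) =
        C1 * 2 ^ s * Real.exp (-TT A J) := by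
      rw [hJ, pow_add, one_div, inv_pow]
      field_simp
    have h6 : Real.exp (-TT A J) ≤ Real.exp (s * L) * Real.exp (-TT A j) := by
      rw [← Real.exp_add]
      apply Real.exp_le_exp.2
      have := hTadd A hA J s
      rw [← hJ] at this
      linarith
    -- second part
    have h7 : (2 : ℝ) ^ j * (2 ^ (2 ^ J * (2 * c)) / 2 ^ 2 ^ j) ≤
        2 ^ m ^ 2 * Real.exp (-TT A j) := by
      have e1 : (2 : ℝ) ^ j * Real.exp (TT A j) ≤ 2 ^ (m * j) := by
        calc (2 : ℝ) ^ j * Real.exp (TT A j) ≤ 2 ^ j * Real.exp (j * L) := by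
              apply mul_le_mul_of_nonneg_left _ (by positivity)
              exact Real.exp_le_exp.2 (hTL A hA j)
          _ = (2 * Real.exp L) ^ j := by
              rw [mul_pow, ← Real.exp_nat_mul]
          _ ≤ (2 ^ m) ^ j := pow_le_pow_left₀ (by positivity) hm j
          _ = 2 ^ (m * j) := by rw [pow_mul]
      have e2 : m * j + 2 ^ J * (2 * c) ≤ m ^ 2 + 2 ^ j := by
        have e3 : j ^ 2 ≤ 2 * 2 ^ j := by
          have key : ∀ j : ℕ, j ^ 2 ≤ 2 * 2 ^ j := by
            intro j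
            induction j with
            | zero => norm_num
            | succ j ih =>
              rcases Nat.lt_or_ge j 3 with h | h
              · interval_cases j <;> norm_num
              · rw [pow_succ 2 j]
                nlinarith
          exact key j
        have e4 : 4 * (m * j) ≤ j ^ 2 + 4 * m ^ 2 := by
          have : (0 : ℤ) ≤ ((j : ℤ) - 2 * m) ^ 2 := sq_nonneg _
          zify
          nlinarith
        omega
      have e3 : (2 : ℝ) ^ (m * j) * 2 ^ (2 ^ J * (2 * c)) ≤ 2 ^ m ^ 2 * 2 ^ 2 ^ j := by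
        rw [← pow_add, ← pow_add]
        exact pow_le_pow_right₀ (by norm_num) e2
      have e4 : Real.exp (-TT A j) = (Real.exp (TT A j))⁻¹ := Real.exp_neg _
      rw [e4, ← mul_div_assoc, ← div_eq_mul_inv, div_le_div_iff₀ (by positivity) (Real.exp_pos _)]
      calc (2 : ℝ) ^ j * 2 ^ (2 ^ J * (2 * c)) * Real.exp (TT A j) =
          (2 ^ j * Real.exp (TT A j)) * 2 ^ (2 ^ J * (2 * c)) := by ring
        _ ≤ 2 ^ (m * j) * 2 ^ (2 ^ J * (2 * c)) := mul_le_mul_of_nonneg_right e1 (by positivity)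
        _ ≤ _ := e3
    have h8 : 0 ≤ L * Real.exp (s * L) * Real.exp (-TT A j) := by positivity
    have h9 : C1 * 2 ^ s * Real.exp (-TT A J) ≤
        C1 * 2 ^ s * (Real.exp (s * L) * Real.exp (-TT A j)) :=
      mul_le_mul_of_nonneg_left h6 (by positivity)
    calc UU A j ≤ _ := h1
      _ ≤ 2 ^ j * (C1 * (1 / 2) ^ J * Real.exp (-TT A J) + 2 ^ (2 ^ J * (2 * c)) / 2 ^ 2 ^ j) := h3
      _ = C1 * 2 ^ s * Real.exp (-TT A J) +
          2 ^ j * (2 ^ (2 ^ J * (2 * c)) / 2 ^ 2 ^ j) := by rw [mul_add, h5]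
      _ ≤ C1 * 2 ^ s * (Real.exp (s * L) * Real.exp (-TT A j)) +
          2 ^ m ^ 2 * Real.exp (-TT A j) := add_le_add h9 h7
      _ ≤ _ := by
          have : (C1 * 2 ^ s * Real.exp (s * L) + 2 ^ m ^ 2 + L * Real.exp (s * L)) *
            Real.exp (-TT A j) = C1 * 2 ^ s * (Real.exp (s * L) * Real.exp (-TT A j)) +
          2 ^ m ^ 2 * Real.exp (-TT A j) + L * Real.exp (s * L) * Real.exp (-TT A j) := by ring
          rw [this]
          linarith

/-- the exponential of the reciprocal sum grows at most linearly in `j` -/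
theorem exp_TT : ∃ C : ℝ, 0 < C ∧ ∀ (A : Finset ℕ), (∀ p ∈ A, p.Prime) →
    (∀ p ∈ A, ∀ q ∈ A, ¬ q ∣ p - 1) → ∀ j : ℕ, Real.exp (TT A j) ≤ 1 + C * j := by
  obtain ⟨C, hC, hS⟩ := step
  refine ⟨C * Real.exp C, by positivity, fun A hA hAA j => ?_⟩
  induction j with
  | zero => rw [TT_zero A hA]; simp
  | succ j ih =>
    rw [TT_succ, Real.exp_add]
    have h1 := hS A hA hAA j
    set u := C * Real.exp (-TT A j) with hu
    have hu0 : 0 ≤ u := by positivity
    have hexp1 : Real.exp (-TT A j) ≤ 1 := Real.exp_le_one_iff.2 (by have := TT_nonneg A j; linarith)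
    have huC : u ≤ C := by
      calc u ≤ C * 1 := mul_le_mul_of_nonneg_left hexp1 hC.le
        _ = C := mul_one C
    have h2 : Real.exp u ≤ 1 + u * Real.exp C := by
      have h3 : Real.exp u ≤ 1 + u * Real.exp u := by
        have h4 := Real.add_one_le_exp (-u)
        have h5 : Real.exp (-u) * Real.exp u = 1 := by rw [← Real.exp_add]; simp
        have h6 := mul_le_mul_of_nonneg_right h4 (Real.exp_pos u).le
        rw [h5] at h6
        linarith
      have h4 : u * Real.exp u ≤ u * Real.exp C :=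
        mul_le_mul_of_nonneg_left (Real.exp_le_exp.2 huC) hu0
      linarith
    have h3 : Real.exp (TT A j) * u = C := by
      rw [hu]
      have h5 : Real.exp (-TT A j) * Real.exp (TT A j) = 1 := by rw [← Real.exp_add]; simp
      calc Real.exp (TT A j) * (C * Real.exp (-TT A j)) =
          C * (Real.exp (-TT A j) * Real.exp (TT A j)) := by ring
        _ = C := by rw [h5, mul_one]
    calc Real.exp (TT A j) * Real.exp (UU A j) ≤ Real.exp (TT A j) * (1 + u * Real.exp C) := by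
          apply mul_le_mul_of_nonneg_left _ (Real.exp_pos _).le
          exact (Real.exp_le_exp.2 h1).trans h2
      _ = Real.exp (TT A j) + (Real.exp (TT A j) * u) * Real.exp C := by ring
      _ ≤ 1 + C * Real.exp C * j + C * Real.exp C := by rw [h3]; linarith
      _ = 1 + C * Real.exp C * ((j + 1 : ℕ) : ℝ) := by push_cast; ring

end Pool.Agent.L0h43.IX
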