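import Pool.Agent.H483R2.ED_BHK
import Pool.Agent.H483R2.ED_CountCRT

set_option autoImplicit false

/-!
# Brun–Hooley sieve with arbitrary residue classes
-/

namespace Pool.Agent.L0h43.IX

open Finset
open Pool.Agent.H410R2.ED

open Classical in
/-- upper and lower bound sieve for periodic conditions with at most `κ` classes modulo each prime -/
theorem sieve_gen : ∃ c : ℕ, 1 ≤ c ∧ ∀ (κ : ℕ), 1 ≤ κ → ∀ (P : ℕ → ℕ → Prop) (J M N : ℕ),
    (∀ l, l.Prime → ∀ t, P l (t + l) ↔ P l t) →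
    (∀ l, l.Prime → #((range l).filter (P l)) ≤ κ) →
    (N : ℝ) / 2 * ∏ l ∈ Pr κ J, (1 - (#((range l).filter (P l)) : ℝ) / l) -
      ((2 : ℝ) ^ 2 ^ J) ^ (c * κ) ≤
      (#((Ico M (M + N)).filter (fun t => ∀ l ∈ Pr κ J, ¬ P l t)) : ℝ) ∧
    (#((Ico M (M + N)).filter (fun t => ∀ l ∈ Pr κ J, ¬ P l t)) : ℝ) ≤
      2 * N * ∏ l ∈ Pr κ J, (1 - (#((range l).filter (P l)) : ℝ) / l) +
        ((2 : ℝ) ^ 2 ^ J) ^ (c * κ) := by
  obtain ⟨c, hc, hB⟩ := Pool.Agent.H483R2.bhk
  refine ⟨c, hc, fun κ hκ P J M N hper hcardle => ?_⟩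
  set g : ℕ → ℝ := fun l => (#((range l).filter (P l)) : ℝ) / l with hg
  have hPr : ∀ l ∈ Pr κ J, l.Prime := fun l hl => (mem_filter.1 hl).2.1
  set nn : ℕ → ℕ := fun t => ∏ l ∈ (Pr κ J).filter (fun l => P l t), l with hnn
  have hdvd : ∀ l ∈ Pr κ J, ∀ t, l ∣ nn t ↔ P l t := by
    intro l hl t
    constructor
    · intro h
      obtain ⟨q, hq, hlq⟩ := (Prime.dvd_finsetProd_iff (Nat.Prime.prime (hPr l hl)) _).1 h
      rw [mem_filter] at hq
      have : l = q := (Nat.prime_dvd_prime_iff_eq (hPr l hl) (hPr q hq.1)).1 hlq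
      rw [this]; exact hq.2
    · intro h
      exact Finset.dvd_prod_of_mem _ (mem_filter.2 ⟨hl, h⟩)
  have h1 := hB κ hκ g (by
    intro l hl
    refine ⟨by rw [hg]; positivity, ?_⟩
    rw [hg]
    have : (#((range l).filter (P l)) : ℝ) ≤ κ := by exact_mod_cast hcardle l hl
    exact div_le_div_of_nonneg_right this (Nat.cast_nonneg _)) J ℕ (Ico M (M + N)) nn N 1
    (by positivity) (by norm_num) (by
    intro D hD
    have h2 := Pool.Agent.H483R2.countCRT D P (fun l hl => hPr l (hD hl))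
      (fun l hl t => hper l (hPr l (hD hl)) t) M N
    have e1 : (Ico M (M + N)).filter (fun t => ∀ l ∈ D, l ∣ nn t) =
        (Ico M (M + N)).filter (fun t => ∀ l ∈ D, P l t) := by
      apply Finset.filter_congr
      intro t _
      exact forall₂_congr fun l hl => hdvd l (hD hl) t
    have e3 : ∏ l ∈ D, (#((range l).filter (P l)) : ℝ) ≤ (κ : ℝ) ^ #D := by
      rw [← Finset.prod_const]
      exact Finset.prod_le_prod (fun l _ => by positivity)
        (fun l hl => by exact_mod_cast hcardle l (hPr l (hD hl)))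
    rw [e1, mul_one]
    exact h2.trans e3)
  have e4 : (Ico M (M + N)).filter (fun ω => ∀ l ∈ Pr κ J, ¬ l ∣ nn ω) =
      (Ico M (M + N)).filter (fun t => ∀ l ∈ Pr κ J, ¬ P l t) := by
    apply Finset.filter_congr
    intro t _
    exact forall₂_congr fun l hl => not_congr (hdvd l hl t)
  rw [e4, mul_one] at h1
  exact h1

end Pool.Agent.L0h43.IX
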